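import Mathlib
import Pool.Agent.Helper11_COV.All
import Pool.Agent.Helper11_COV.CovB
import Pool.Agent.Helper11_COV.CovC
import Pool.Agent.Helper11_COV.CovD
import Pool.Agent.Helper11_COV.CovE
import Pool.Agent.Helper11_COV.CovH
import Pool.Agent.Helper11_COV.Fam

/-!
# The moduli of a fourfold cover

Let `S` be a finite set of distinct moduli `> 1`, with one residue `a d` for each `d ∈ S`, such that
every integer is in at least four of the progressions.  Then some modulus is divisible by `4`, some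
modulus is divisible by `3`, some modulus is divisible by `5` or by `7`, some modulus is divisible by
`16` or by the square of an odd prime, and some modulus has a prime factor which is at least `17`.
The same holds for the moduli of four covering systems with mutually distinct moduli `> 1`.
-/

namespace Pool.Agent.Results.MP_8c3bb7_nt.FourfoldStructure

theorem result :
    (∀ (S : Finset ℕ) (a : ℕ → ℤ), (∀ d ∈ S, 1 < d) →
      (∀ n : ℤ, 4 ≤ (S.filter (fun d : ℕ => n ≡ a d [ZMOD (d : ℤ)])).card) →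
      (∃ d ∈ S, 4 ∣ d) ∧ (∃ d ∈ S, 3 ∣ d) ∧ (∃ d ∈ S, 5 ∣ d ∨ 7 ∣ d) ∧
      (∃ d ∈ S, 16 ∣ d ∨ ∃ p : ℕ, p.Prime ∧ p ≠ 2 ∧ p ^ 2 ∣ d) ∧
      ∃ d ∈ S, ∃ p : ℕ, p.Prime ∧ 17 ≤ p ∧ p ∣ d) ∧
    ∀ (S : Fin 4 → Finset ℕ) (a : Fin 4 → ℕ → ℤ), (∀ i, ∀ d ∈ S i, 1 < d) →
      (∀ i j, i ≠ j → Disjoint (S i) (S j)) →
      (∀ i, ∀ n : ℤ, ∃ d ∈ S i, n ≡ a i d [ZMOD (d : ℤ)]) →
      (∃ i, ∃ d ∈ S i, 4 ∣ d) ∧ (∃ i, ∃ d ∈ S i, 3 ∣ d) ∧ (∃ i, ∃ d ∈ S i, 5 ∣ d ∨ 7 ∣ d) ∧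
      (∃ i, ∃ d ∈ S i, 16 ∣ d ∨ ∃ p : ℕ, p.Prime ∧ p ≠ 2 ∧ p ^ 2 ∣ d) ∧
      ∃ i, ∃ d ∈ S i, ∃ p : ℕ, p.Prime ∧ 17 ≤ p ∧ p ∣ d := by
  have key : ∀ (S : Finset ℕ) (a : ℕ → ℤ), (∀ d ∈ S, 1 < d) →
      (∀ n : ℤ, 4 ≤ (S.filter (fun d : ℕ => n ≡ a d [ZMOD (d : ℤ)])).card) →
      (∃ d ∈ S, 4 ∣ d) ∧ (∃ d ∈ S, 3 ∣ d) ∧ (∃ d ∈ S, 5 ∣ d ∨ 7 ∣ d) ∧
      (∃ d ∈ S, 16 ∣ d ∨ ∃ p : ℕ, p.Prime ∧ p ≠ 2 ∧ p ^ 2 ∣ d) ∧
      ∃ d ∈ S, ∃ p : ℕ, p.Prime ∧ 17 ≤ p ∧ p ∣ d := by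
    intro S a h1 h4
    refine ⟨?_, ?_, ?_, ?_, ?_⟩
    · by_contra h
      refine Pool.Agent.COV.H11.covB Pool.Agent.COV.H11.mods' S a h1
        (fun d hd h5 => h ⟨d, hd, h5⟩) fun n => ?_
      convert h4 n
    · by_contra h
      refine Pool.Agent.COV.H11.covC Pool.Agent.COV.H11.mods' S a h1
        (fun d hd h5 => h ⟨d, hd, h5⟩) fun n => ?_
      convert h4 n
    · by_contra h
      refine Pool.Agent.COV.H11.covD Pool.Agent.COV.H11.mods' S a h1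
        (fun d hd => ⟨fun h5 => h ⟨d, hd, Or.inl h5⟩, fun h5 => h ⟨d, hd, Or.inr h5⟩⟩) fun n => ?_
      convert h4 n
    · by_contra h
      refine Pool.Agent.COV.H11.covE Pool.Agent.COV.H11.mods' S a h1
        (fun d hd => ⟨fun h5 => h ⟨d, hd, Or.inl h5⟩,
          fun p hp hp2 h5 => h ⟨d, hd, Or.inr ⟨p, hp, hp2, h5⟩⟩⟩) fun n => ?_
      convert h4 n
    · by_contra h
      refine Pool.Agent.COV.H11.covH Pool.Agent.COV.H11.mods' S a h1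
        (fun d hd p hp h5 => ?_) fun n => ?_
      · by_contra h6
        push Not at h6
        refine h ⟨d, hd, p, hp, ?_, h5⟩
        by_contra h7
        push Not at h7
        interval_cases p <;> revert hp <;> norm_num
      · convert h4 n
  refine ⟨key, fun S a h1 h2 h3 => ?_⟩
  obtain ⟨b, -, hb⟩ := Pool.Agent.COV.H11.fam S a h2 h3
  obtain ⟨k1, k2, k3, k4, k5⟩ := key (Finset.univ.biUnion S) b (fun d hd => by
    obtain ⟨i, -, hi⟩ := Finset.mem_biUnion.mp hd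
    exact h1 i d hi) (fun n => by convert hb n)
  have conv : ∀ P : ℕ → Prop, (∃ d ∈ Finset.univ.biUnion S, P d) → ∃ i, ∃ d ∈ S i, P d := by
    rintro P ⟨d, hd, hP⟩
    obtain ⟨i, -, hi⟩ := Finset.mem_biUnion.mp hd
    exact ⟨i, d, hi, hP⟩
  exact ⟨conv _ k1, conv _ k2, conv _ k3, conv _ k4, conv _ k5⟩

end Pool.Agent.Results.MP_8c3bb7_nt.FourfoldStructure
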