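import Mathlib
import Pool.Agent.Helper11_COV.All
import Pool.Agent.Helper11_COV.CovA
import Pool.Agent.Helper11_COV.Fam

/-!
# No sevenfold cover with distinct moduli

* No finite set `S` of distinct moduli `> 1`, with one residue `a d` for each `d ∈ S`, contains every
  integer in at least seven of its progressions.
* No family of seven covering systems with mutually distinct moduli `> 1` exists.
-/

namespace Pool.Agent.Results.MP_8c3bb7_nt.NoSevenfold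

theorem result :
    (∀ (S : Finset ℕ) (a : ℕ → ℤ), (∀ d ∈ S, 1 < d) →
      ¬ ∀ n : ℤ, 7 ≤ (S.filter (fun d : ℕ => n ≡ a d [ZMOD (d : ℤ)])).card) ∧
    ¬ ∃ S : Fin 7 → Finset ℕ, ∃ a : Fin 7 → ℕ → ℤ, (∀ i, ∀ d ∈ S i, 1 < d) ∧
      (∀ i j, i ≠ j → Disjoint (S i) (S j)) ∧
      (∀ i, ∀ n : ℤ, ∃ d ∈ S i, n ≡ a i d [ZMOD (d : ℤ)]) := by
  have key : ∀ (S : Finset ℕ) (a : ℕ → ℤ), (∀ d ∈ S, 1 < d) →
      ¬ ∀ n : ℤ, 7 ≤ (S.filter (fun d : ℕ => n ≡ a d [ZMOD (d : ℤ)])).card := by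
    intro S a h1 h
    refine Pool.Agent.COV.H11.covA Pool.Agent.COV.H11.mods' S a h1 fun n => ?_
    convert h n
  refine ⟨key, ?_⟩
  rintro ⟨S, a, h1, h2, h3⟩
  obtain ⟨b, -, hb⟩ := Pool.Agent.COV.H11.fam S a h2 h3
  refine key (Finset.univ.biUnion S) b ?_ fun n => ?_
  · intro d hd
    obtain ⟨i, -, hi⟩ := Finset.mem_biUnion.mp hd
    exact h1 i d hi
  · convert hb n

end Pool.Agent.Results.MP_8c3bb7_nt.NoSevenfold
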