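import Mathlib
import Pool.Agent.Helper11_COV.All
import Pool.Agent.Helper11_COV.CovG
import Pool.Agent.Helper11_COV.Fam

/-!
# No threefold cover with squarefree distinct moduli

* No finite set `S` of distinct squarefree moduli `> 1`, with one residue `a d` for each `d ∈ S`,
  contains every integer in at least three of its progressions.
* No family of three covering systems with mutually distinct squarefree moduli `> 1` exists.
-/

namespace Pool.Agent.Results.MP_8c3bb7_nt.SquarefreeThreefold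

theorem result :
    (∀ (S : Finset ℕ) (a : ℕ → ℤ), (∀ d ∈ S, 1 < d) → (∀ d ∈ S, Squarefree d) →
      ¬ ∀ n : ℤ, 3 ≤ (S.filter (fun d : ℕ => n ≡ a d [ZMOD (d : ℤ)])).card) ∧
    ¬ ∃ S : Fin 3 → Finset ℕ, ∃ a : Fin 3 → ℕ → ℤ, (∀ i, ∀ d ∈ S i, 1 < d ∧ Squarefree d) ∧
      (∀ i j, i ≠ j → Disjoint (S i) (S j)) ∧
      (∀ i, ∀ n : ℤ, ∃ d ∈ S i, n ≡ a i d [ZMOD (d : ℤ)]) := by
  have key : ∀ (S : Finset ℕ) (a : ℕ → ℤ), (∀ d ∈ S, 1 < d) → (∀ d ∈ S, Squarefree d) →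
      ¬ ∀ n : ℤ, 3 ≤ (S.filter (fun d : ℕ => n ≡ a d [ZMOD (d : ℤ)])).card := by
    intro S a h1 h2 h
    refine Pool.Agent.COV.H11.covG Pool.Agent.COV.H11.mods' S a h1 h2 fun n => ?_
    convert h n
  refine ⟨key, ?_⟩
  rintro ⟨S, a, h1, h2, h3⟩
  obtain ⟨b, -, hb⟩ := Pool.Agent.COV.H11.fam S a h2 h3
  refine key (Finset.univ.biUnion S) b ?_ ?_ fun n => ?_
  · intro d hd
    obtain ⟨i, -, hi⟩ := Finset.mem_biUnion.mp hd
    exact (h1 i d hi).1
  · intro d hd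
    obtain ⟨i, -, hi⟩ := Finset.mem_biUnion.mp hd
    exact (h1 i d hi).2
  · convert hb n

end Pool.Agent.Results.MP_8c3bb7_nt.SquarefreeThreefold
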